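import Mathlib
import Pool.Agent.Y648.HO.Lrn

/-! Boosting (`S_BST`). -/

set_option autoImplicit false

namespace Pool.Agent.Y648.HO

open Classical in
theorem bst_step {α β : Type} (S : Finset α) (B : Set β) (wr : β → α → Prop)
    (h : ∀ w : α → ℝ, (∀ x ∈ S, 0 < w x) → ∃ b ∈ B,
      8 * ∑ q ∈ S.filter (fun q => wr b q), w q ≤ ∑ q ∈ S, w q) (n : ℕ) :
    ∃ f : ℕ → β, (∀ t < n, f t ∈ B) ∧
      8 ^ n * ∑ q ∈ S, (2 : ℝ) ^ ((Finset.range n).filter fun t => wr (f t) q).card ≤
        9 ^ n * (S.card : ℝ) := by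
  induction n with
  | zero =>
    obtain ⟨b, -, -⟩ := h (fun _ => 1) (fun _ _ => one_pos)
    exact ⟨fun _ => b, fun t ht => absurd ht (Nat.not_lt_zero t), by simp⟩
  | succ n ih =>
    obtain ⟨f, hf, hs⟩ := ih
    obtain ⟨b, hb, hbs⟩ := h
      (fun q => (2 : ℝ) ^ ((Finset.range n).filter fun t => wr (f t) q).card)
      (fun _ _ => by positivity)
    refine ⟨Function.update f n b, fun t ht => ?_, ?_⟩
    · by_cases htn : t = n
      · subst htn
        rw [Function.update_self]
        exact hb
      · rw [Function.update_of_ne htn]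
        exact hf t (by omega)
    · have h1 : ∀ q, (((Finset.range (n + 1)).filter
          fun t => wr (Function.update f n b t) q).card) =
          ((Finset.range n).filter fun t => wr (f t) q).card + (if wr b q then 1 else 0) := by
        intro q
        rw [Finset.range_add_one, Finset.filter_insert]
        have h2 : (Finset.range n).filter (fun t => wr (Function.update f n b t) q) =
            (Finset.range n).filter fun t => wr (f t) q := by
          refine Finset.filter_congr fun t ht => ?_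
          rw [Function.update_of_ne (Finset.mem_range.1 ht).ne]
        rw [Function.update_self, h2]
        split_ifs with hw
        · rw [Finset.card_insert_of_notMem]
          simp
        · rfl
      have h3 : ∑ q ∈ S, (2 : ℝ) ^ (((Finset.range (n + 1)).filter
          fun t => wr (Function.update f n b t) q).card) =
          ∑ q ∈ S, (2 : ℝ) ^ ((Finset.range n).filter fun t => wr (f t) q).card +
          ∑ q ∈ S.filter (fun q => wr b q),
            (2 : ℝ) ^ ((Finset.range n).filter fun t => wr (f t) q).card := by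
        rw [Finset.sum_filter, ← Finset.sum_add_distrib]
        refine Finset.sum_congr rfl fun q _ => ?_
        rw [h1 q]
        split_ifs with hw
        · rw [pow_succ]
          ring
        · rw [add_zero, add_zero]
      rw [h3, pow_succ, pow_succ]
      have h4 : (0 : ℝ) < 8 ^ n := by positivity
      have h5 := mul_le_mul_of_nonneg_left hbs h4.le
      nlinarith

open Classical in
theorem t_BST : S_BST := by
  intro α β S B wr T h hT
  obtain ⟨f, hf, hs⟩ := bst_step S B wr h T
  refine ⟨f, hf, fun q hq => ?_⟩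
  by_contra hcon
  push Not at hcon
  set m := ((Finset.range T).filter fun t => wr (f t) q).card with hm
  have h1 : (2 : ℝ) ^ m ≤
      ∑ q ∈ S, (2 : ℝ) ^ ((Finset.range T).filter fun t => wr (f t) q).card :=
    Finset.single_le_sum
      (f := fun q => (2 : ℝ) ^ ((Finset.range T).filter fun t => wr (f t) q).card)
      (fun _ _ => by positivity) hq
  have h2 : (8 : ℝ) ^ T * 2 ^ m ≤ 9 ^ T * S.card :=
    (mul_le_mul_of_nonneg_left h1 (by positivity)).trans hs
  have h3 : ((8 : ℝ) ^ T * 2 ^ m) ^ 4 ≤ (9 ^ T * S.card) ^ 4 :=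
    pow_le_pow_left₀ (by positivity) h2 4
  have h4 : (S.card : ℝ) ^ 4 < 2 ^ T := by exact_mod_cast hT
  have h5 : (9 ^ T * (S.card : ℝ)) ^ 4 < (9 ^ 4 * 2) ^ T := by
    have e1 : (9 ^ T * (S.card : ℝ)) ^ 4 = (9 ^ 4) ^ T * (S.card : ℝ) ^ 4 := by
      rw [mul_pow, ← pow_mul, ← pow_mul, mul_comm T 4]
    rw [e1, mul_pow]
    exact mul_lt_mul_of_pos_left h4 (by positivity)
  have h6 : (8 ^ 4 * 4 : ℝ) ^ T ≤ ((8 : ℝ) ^ T * 2 ^ m) ^ 4 := by
    have e1 : ((8 : ℝ) ^ T * 2 ^ m) ^ 4 = (8 ^ 4) ^ T * 2 ^ (4 * m) := by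
      rw [mul_pow, ← pow_mul, ← pow_mul, ← pow_mul, mul_comm T 4, mul_comm m 4]
    have e2 : (4 : ℝ) ^ T = 2 ^ (2 * T) := by
      rw [pow_mul]
      norm_num
    rw [e1, mul_pow, e2]
    refine mul_le_mul_of_nonneg_left ?_ (by positivity)
    exact pow_le_pow_right₀ (by norm_num) (by omega)
  have h7 : (9 ^ 4 * 2 : ℝ) ^ T ≤ (8 ^ 4 * 4) ^ T := pow_le_pow_left₀ (by norm_num) (by norm_num) T
  linarith

end Pool.Agent.Y648.HO
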